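import Pool.Agent.Q266.VG.Stm

/-!
# Project VG (helper266), job IDA: a formal identity (by helper153)
-/

set_option autoImplicit false

namespace Pool.Agent.Q153.VG

open Pool.Agent.Q266.VG

open scoped commutatorElement

theorem phi_cons {L : Type} [AddCommGroup L] (e : ℕ → ℕ → Multiset ℕ → L) (a b : ℕ) (Z : Multiset ℕ) :
    PhiA e a (b ::ₘ Z) = e a b Z + (Z.map fun z => e a z (b ::ₘ Z.erase z)).sum := by
  unfold PhiA
  rw [Multiset.map_cons, Multiset.sum_cons, Multiset.erase_cons_head]
  congr 2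
  refine Multiset.map_congr rfl fun z hz => ?_
  by_cases h : z = b
  · subst h
    rw [Multiset.erase_cons_head, Multiset.cons_erase hz]
  · rw [Multiset.erase_cons_tail _ (fun h' => h h'.symm)]

/-- **JOB IDA.** -/
theorem ida : S_IDA := by
  intro L _ e h1 h2 a b Z
  rw [phi_cons, phi_cons]
  have h3 : (Z.map fun z => e a z (b ::ₘ Z.erase z)).sum - (Z.map fun z => e b z (a ::ₘ Z.erase z)).sum =
      (Multiset.card Z : ℤ) • e a b Z := by
    rw [← Multiset.sum_map_sub]
    have h4 : (Z.map fun z => e a z (b ::ₘ Z.erase z) - e b z (a ::ₘ Z.erase z)) = Z.map fun _ => e a b Z := by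
      refine Multiset.map_congr rfl fun z hz => ?_
      have h5 := h2 a b z (Z.erase z)
      rw [Multiset.cons_erase hz, h1 a z] at h5
      have h6 : e a z (b ::ₘ Z.erase z) - e b z (a ::ₘ Z.erase z) =
          e a b Z - (e a b Z + e b z (a ::ₘ Z.erase z) + -e a z (b ::ₘ Z.erase z)) := by abel
      rw [h6, h5, sub_zero]
    rw [h4, Multiset.map_const', Multiset.sum_replicate, natCast_zsmul]
  have h7 : e a b Z + (Z.map fun z => e a z (b ::ₘ Z.erase z)).sum -
      (e b a Z + (Z.map fun z => e b z (a ::ₘ Z.erase z)).sum) = (e a b Z - e b a Z) +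
      ((Z.map fun z => e a z (b ::ₘ Z.erase z)).sum - (Z.map fun z => e b z (a ::ₘ Z.erase z)).sum) := by
    abel
  rw [h7, h3, h1 a b, add_smul]
  have h8 : (2 : ℤ) • e a b Z = e a b Z + e a b Z := two_smul ℤ _
  rw [h8]
  abel

end Pool.Agent.Q153.VG
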